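import Mathlib

/-!
# MP_c850b7_lc: finitely generated isotypic algebras need not be isomorphic

The signature has the unary operations `p`, `e` and `s i` (`i = 0, 1, 2, …`).  The algebra `H c`
(`c = 0, 1`) has the carrier `List ℕ × ℕ`; the pair `(w, k)` is `s_w p^k (a)` for the generator
`a = ([], 0)`, and the only relations are `p (s i x) = x`; the operation `e` fixes the elements of even
level and is `p` on the elements of odd level, where the level of `(w, k)` is `k + |w| + c`.
The algebras `H 0` and `H 1` embed in each other by `(w, k) ↦ (w, k + 1)` and they are not isomorphic,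
because the generator is the only element that is not in the image of an `s i` and that generates the
algebra.  For every finite set of operations and every finite tuple there is a bijection `H c' → H c`
that respects these operations and is `(w, k) ↦ (w, k + 1)` on the tuple, so that the embeddings are
elementary.
-/

set_option autoImplicit false

namespace Pool.Agent.Results.MP_c850b7_lc.NotIso

open FirstOrder FirstOrder.Language

/-! ### Definitions of the statement -/

/-- `H` belongs to the variety defined by the set `E` of identities: each identity is a pair of terms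
in the variables `x_1, …, x_n`, and it has to hold for all values of the variables -/
def InVariety {L : FirstOrder.Language.{0, 0}} (E : Set (Σ n : ℕ, L.Term (Fin n) × L.Term (Fin n))) (H : Type)
    [L.Structure H] : Prop :=
  ∀ q ∈ E, ∀ v : Fin q.1 → H, q.2.1.realize v = q.2.2.realize v

/-- the type of the tuple `a`: all the first-order formulas in `x_1, …, x_n` that hold at `a` -/
def tp (L : FirstOrder.Language.{0, 0}) {H : Type} [L.Structure H] {n : ℕ} (a : Fin n → H) :
    Set (L.Formula (Fin n)) := {φ | φ.Realize a}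

/-- `H₁` and `H₂` are isotypic: they realize the same types of finite tuples -/
def Isotypic (L : FirstOrder.Language.{0, 0}) (H₁ H₂ : Type) [L.Structure H₁] [L.Structure H₂] : Prop :=
  ∀ n : ℕ, {t | ∃ a : Fin n → H₁, t = tp L a} = {t | ∃ a : Fin n → H₂, t = tp L a}

/-! ### The example -/

/-- the operations; all of them are unary -/
inductive Op : ℕ → Type
  | p : Op 1
  | e : Op 1
  | s (i : ℕ) : Op 1

/-- the signature -/
def L : FirstOrder.Language.{0, 0} := ⟨Op, fun _ => Empty⟩

/-- the operation `p` -/
def pp : List ℕ × ℕ → List ℕ × ℕ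
  | ([], k) => ([], k + 1)
  | (_ :: w, k) => (w, k)

/-- the operation `s i` -/
def ss (i : ℕ) (x : List ℕ × ℕ) : List ℕ × ℕ := (i :: x.1, x.2)

/-- the operation `e` -/
def ee (c : ℕ) (x : List ℕ × ℕ) : List ℕ × ℕ := if (x.2 + x.1.length + c) % 2 = 0 then x else pp x

/-- the carrier -/
def H (_c : ℕ) : Type := List ℕ × ℕ

instance (c : ℕ) : L.Structure (H c) where
  funMap {n} f := match n, f with
    | _, Op.p => fun x => pp (x 0)
    | _, Op.e => fun x => ee c (x 0)
    | _, Op.s i => fun x => ss i (x 0)
  RelMap {_} r := r.elim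

theorem funMap_p (c : ℕ) (x : Fin 1 → H c) :
    Structure.funMap (L := L) (M := H c) (Op.p : L.Functions 1) x = pp (x 0) := rfl

theorem funMap_e (c : ℕ) (x : Fin 1 → H c) :
    Structure.funMap (L := L) (M := H c) (Op.e : L.Functions 1) x = ee c (x 0) := rfl

theorem funMap_s (c i : ℕ) (x : Fin 1 → H c) :
    Structure.funMap (L := L) (M := H c) (Op.s i : L.Functions 1) x = ss i (x 0) := rfl

/-! ### The bijections -/

/-- the map `(w, k) ↦ (w, k + 1)` with a correction above `([], 0)` to make it surjective -/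
def g (N : ℕ) : List ℕ → ℕ → List ℕ × ℕ
  | [], k => ([], k + 1)
  | j :: w, k => if w = [] ∧ k = 0 then
      (if j < N then ([j], 1) else if j = N then ([], 0) else ([j - 1], 1))
    else (j :: (g N w k).1, (g N w k).2)

/-- the inverse -/
def h (N : ℕ) : List ℕ → ℕ → List ℕ × ℕ
  | [], 0 => ([N], 0)
  | [], k + 1 => ([], k)
  | j :: w, k => if w = [] ∧ k = 1 then (if j < N then ([j], 0) else ([j + 1], 0))
    else (j :: (h N w k).1, (h N w k).2)

theorem h_g (N : ℕ) (w : List ℕ) (k : ℕ) : h N (g N w k).1 (g N w k).2 = (w, k) := by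
  induction w with
  | nil => rfl
  | cons j w ih =>
    by_cases hw : w = [] ∧ k = 0
    · obtain ⟨rfl, rfl⟩ := hw
      rcases lt_trichotomy j N with hj | hj | hj
      · simp [g, h, hj]
      · simp [g, h, hj]
      · have h1 : ¬ j < N := by omega
        have h2 : ¬ j = N := by omega
        have h3 : ¬ j - 1 < N := by omega
        simp only [g, h, h1, h2, h3, and_self, if_true, if_false]
        simp; omega
    · have h1 : g N (j :: w) k = (j :: (g N w k).1, (g N w k).2) := by
        simp only [g, hw, if_false]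
      rw [h1]
      have h2 : ¬ ((g N w k).1 = [] ∧ (g N w k).2 = 1) := by
        rintro ⟨e1, e2⟩
        rw [e1, e2] at ih
        apply hw
        simp only [h] at ih
        exact ⟨(Prod.mk.inj ih).1.symm, (Prod.mk.inj ih).2.symm⟩
      simp only [h, h2, if_false, ih]

theorem g_h (N : ℕ) (w : List ℕ) (k : ℕ) : g N (h N w k).1 (h N w k).2 = (w, k) := by
  induction w with
  | nil =>
    cases k with
    | zero => simp [g, h]
    | succ k => rfl
  | cons j w ih =>
    by_cases hw : w = [] ∧ k = 1
    · obtain ⟨rfl, rfl⟩ := hw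
      by_cases hj : j < N
      · simp [g, h, hj]
      · have h1 : ¬ j + 1 < N := by omega
        have h2 : ¬ j + 1 = N := by omega
        simp [g, h, hj, h1, h2]
    · have h1 : h N (j :: w) k = (j :: (h N w k).1, (h N w k).2) := by
        simp only [h, hw, if_false]
      rw [h1]
      have h2 : ¬ ((h N w k).1 = [] ∧ (h N w k).2 = 0) := by
        rintro ⟨e1, e2⟩
        rw [e1, e2] at ih
        apply hw
        simp only [g] at ih
        exact ⟨(Prod.mk.inj ih).1.symm, (Prod.mk.inj ih).2.symm⟩
      simp only [g, h2, if_false, ih]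

/-- the bijection -/
def G (N c' c : ℕ) : H c' ≃ H c where
  toFun x := g N x.1 x.2
  invFun x := h N x.1 x.2
  left_inv x := h_g N x.1 x.2
  right_inv x := g_h N x.1 x.2

theorem g_p (N : ℕ) (w : List ℕ) (k : ℕ) : g N (pp (w, k)).1 (pp (w, k)).2 = pp (g N w k) := by
  cases w with
  | nil => rfl
  | cons j w =>
    by_cases hw : w = [] ∧ k = 0
    · obtain ⟨rfl, rfl⟩ := hw
      rcases lt_trichotomy j N with hj | hj | hj
      · simp [g, pp, hj]
      · simp [g, pp, hj]
      · have h1 : ¬ j < N := by omega
        have h2 : ¬ j = N := by omega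
        simp [g, pp, h1, h2]
    · have h1 : g N (j :: w) k = (j :: (g N w k).1, (g N w k).2) := by
        simp only [g, hw, if_false]
      rw [h1]
      rfl

theorem g_s (N i : ℕ) (hi : i < N) (w : List ℕ) (k : ℕ) :
    g N (ss i (w, k)).1 (ss i (w, k)).2 = ss i (g N w k) := by
  by_cases hw : w = [] ∧ k = 0
  · obtain ⟨rfl, rfl⟩ := hw
    simp [g, ss, hi]
  · simp only [ss, g, hw, if_false]

theorem g_level (N : ℕ) (w : List ℕ) (k : ℕ) :
    ((g N w k).2 + (g N w k).1.length) % 2 = (k + w.length + 1) % 2 := by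
  induction w with
  | nil => simp [g]
  | cons j w ih =>
    by_cases hw : w = [] ∧ k = 0
    · obtain ⟨rfl, rfl⟩ := hw
      rcases lt_trichotomy j N with hj | hj | hj
      · simp [g, hj]
      · simp [g, hj]
      · have h1 : ¬ j < N := by omega
        have h2 : ¬ j = N := by omega
        simp [g, h1, h2]
    · have h1 : g N (j :: w) k = (j :: (g N w k).1, (g N w k).2) := by
        simp only [g, hw, if_false]
      rw [h1]
      simp only [List.length_cons]
      omega

theorem g_e (N c' c : ℕ) (hc : (c' + c) % 2 = 1) (w : List ℕ) (k : ℕ) :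
    g N (ee c' (w, k)).1 (ee c' (w, k)).2 = ee c (g N w k) := by
  have h1 := g_level N w k
  unfold ee
  by_cases h0 : (k + w.length + c') % 2 = 0
  · have h2 : ((g N w k).2 + (g N w k).1.length + c) % 2 = 0 := by omega
    simp only [h0, h2, if_true]
  · have h2 : ¬ ((g N w k).2 + (g N w k).1.length + c) % 2 = 0 := by omega
    simp only [h0, h2, if_false]
    exact g_p N w k

/-- a bound for the symbols -/
def fb {n : ℕ} : Op n → ℕ
  | Op.p => 0
  | Op.e => 0
  | Op.s i => i + 1

theorem G_fun (N c' c : ℕ) (hc : (c' + c) % 2 = 1) {n : ℕ} (f : L.Functions n) (hf : fb f ≤ N)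
    (x : Fin n → H c') :
    G N c' c (Structure.funMap f x) = Structure.funMap f (fun i => G N c' c (x i)) := by
  cases f with
  | p => exact g_p N (x 0).1 (x 0).2
  | e => exact g_e N c' c hc (x 0).1 (x 0).2
  | s i => exact g_s N i hf (x 0).1 (x 0).2

/-! ### Formulas -/

/-- a bound for the symbols of a term -/
def tb {α : Type} : L.Term α → ℕ
  | .var _ => 0
  | .func f ts => max (fb f) (Finset.univ.sup fun i => tb (ts i))

/-- a bound for the symbols of a formula -/
def bb {α : Type} : {n : ℕ} → L.BoundedFormula α n → ℕ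
  | _, .falsum => 0
  | _, .equal t₁ t₂ => max (tb t₁) (tb t₂)
  | _, .rel _ _ => 0
  | _, .imp φ ψ => max (bb φ) (bb ψ)
  | _, .all φ => bb φ

theorem G_term (N c' c : ℕ) (hc : (c' + c) % 2 = 1) {α : Type} (t : L.Term α) (ht : tb t ≤ N)
    (v : α → H c') : G N c' c (t.realize v) = t.realize (fun i => G N c' c (v i)) := by
  induction t with
  | var _ => rfl
  | func f ts ih =>
    rw [tb] at ht
    rw [Term.realize_func, Term.realize_func, G_fun N c' c hc f (le_trans (le_max_left _ _) ht)]
    congr 1
    funext i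
    refine ih i (le_trans ?_ (le_trans (le_max_right _ _) ht))
    exact Finset.le_sup (f := fun i => tb (ts i)) (Finset.mem_univ i)

theorem G_formula (N c' c : ℕ) (hc : (c' + c) % 2 = 1) {α : Type} {n : ℕ}
    (φ : L.BoundedFormula α n) (hφ : bb φ ≤ N) (v : α → H c') (x : Fin n → H c') :
    φ.Realize v x ↔ φ.Realize (fun i => G N c' c (v i)) (fun i => G N c' c (x i)) := by
  induction φ with
  | falsum => rfl
  | equal t₁ t₂ =>
    rw [bb] at hφ
    have h1 := G_term N c' c hc t₁ (le_trans (le_max_left _ _) hφ) (Sum.elim v x)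
    have h2 := G_term N c' c hc t₂ (le_trans (le_max_right _ _) hφ) (Sum.elim v x)
    have h3 : (fun i => G N c' c (Sum.elim v x i)) =
        Sum.elim (fun i => G N c' c (v i)) (fun i => G N c' c (x i)) := by
      funext i
      cases i <;> rfl
    rw [h3] at h1 h2
    change t₁.realize _ = t₂.realize _ ↔ t₁.realize _ = t₂.realize _
    rw [← h1, ← h2]
    exact (G N c' c).injective.eq_iff.symm
  | rel r _ => exact r.elim
  | imp φ ψ ih1 ih2 =>
    rw [bb] at hφ
    rw [BoundedFormula.realize_imp, BoundedFormula.realize_imp,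
      ih1 (le_trans (le_max_left _ _) hφ), ih2 (le_trans (le_max_right _ _) hφ)]
  | all φ ih =>
    rw [bb] at hφ
    rw [BoundedFormula.realize_all, BoundedFormula.realize_all]
    have key : ∀ (a : H c'), (fun i => G N c' c ((Fin.snoc x a : Fin _ → H c') i)) =
        (Fin.snoc (fun i => G N c' c (x i)) (G N c' c a) : Fin _ → H c) := by
      intro a
      funext i
      refine Fin.lastCases ?_ (fun j => ?_) i
      · simp
      · simp
    constructor
    · intro hh b
      have := (ih hφ (Fin.snoc x ((G N c' c).symm b))).1 (hh _)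
      rw [key, Equiv.apply_symm_apply] at this
      exact this
    · intro hh a
      rw [ih hφ, key]
      exact hh _

/-- the embedding -/
def τ {c' : ℕ} (c : ℕ) (x : H c') : H c := (x.1, x.2 + 1)

theorem g_eq (w : List ℕ) (k : ℕ) : ∃ N₀ : ℕ, ∀ N : ℕ, N₀ ≤ N → g N w k = (w, k + 1) := by
  induction w with
  | nil => exact ⟨0, fun N _ => rfl⟩
  | cons j w ih =>
    obtain ⟨N₀, h0⟩ := ih
    refine ⟨max N₀ (j + 1), fun N hN => ?_⟩
    have h1 : j < N := by omega
    have h2 := h0 N (by omega)
    by_cases hw : w = [] ∧ k = 0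
    · obtain ⟨rfl, rfl⟩ := hw
      simp [g, h1]
    · simp only [g, hw, if_false, h2]

theorem tp_τ (c' c : ℕ) (hc : (c' + c) % 2 = 1) {n : ℕ} (a : Fin n → H c') :
    tp L a = tp L (fun i => τ c (a i)) := by
  ext φ
  choose N₀ hN₀ using fun i : Fin n => g_eq (a i).1 (a i).2
  have h1 : bb φ ≤ max (bb φ) (Finset.univ.sup N₀) := le_max_left _ _
  have h2 : (fun i => G (max (bb φ) (Finset.univ.sup N₀)) c' c (a i)) = fun i => τ c (a i) := by
    funext i
    refine hN₀ i _ (le_trans ?_ (le_max_right _ _))
    exact Finset.le_sup (Finset.mem_univ i)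
  have h3 := G_formula _ c' c hc φ h1 a default
  rw [h2] at h3
  change φ.Realize a ↔ φ.Realize _
  unfold Formula.Realize
  rw [h3]
  have h4 : (fun i => G (max (bb φ) (Finset.univ.sup N₀)) c' c ((default : Fin 0 → H c') i)) =
      (default : Fin 0 → H c) := by
    funext i
    exact i.elim0
  rw [h4]

theorem isotypic : Isotypic L (H 0) (H 1) := by
  intro n
  ext t
  constructor
  · rintro ⟨a, rfl⟩
    exact ⟨_, tp_τ 0 1 (by norm_num) a⟩
  · rintro ⟨a, rfl⟩
    exact ⟨_, tp_τ 1 0 (by norm_num) a⟩

/-- the generator -/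
def gen (c : ℕ) : H c := ([], 0)

theorem closure_gen (c : ℕ) : Substructure.closure L {gen c} = ⊤ := by
  rw [eq_top_iff]
  rintro ⟨w, k⟩ -
  induction w with
  | nil =>
    induction k with
    | zero => exact Substructure.subset_closure rfl
    | succ k ih =>
      exact (Substructure.closure L {gen c}).fun_mem (Op.p : L.Functions 1)
        (fun _ => (([], k) : H c)) (fun _ => ih)
  | cons j w ih =>
    exact (Substructure.closure L {gen c}).fun_mem (Op.s j : L.Functions 1)
        (fun _ => ((w, k) : H c)) (fun _ => ih)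

theorem eq_ss_of_pp (y : List ℕ × ℕ) (hy : pp y = ([], 0)) : ∃ i, y = ss i ([], 0) := by
  obtain ⟨w, k⟩ := y
  cases w with
  | nil =>
    have := congrArg Prod.snd hy
    simp [pp] at this
  | cons i w =>
    refine ⟨i, ?_⟩
    simp only [pp] at hy
    simp only [ss]
    rw [(Prod.mk.inj hy).1, (Prod.mk.inj hy).2]

theorem not_iso : IsEmpty (H 0 ≃[L] H 1) := by
  refine ⟨fun f => ?_⟩
  have fp : ∀ x : H 0, f (pp x) = pp (f x) := fun x =>
    f.map_fun (Op.p : L.Functions 1) (fun _ => x)
  have fe : ∀ x : H 0, f (ee 0 x) = ee 1 (f x) := fun x =>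
    f.map_fun (Op.e : L.Functions 1) (fun _ => x)
  have fs : ∀ (i : ℕ) (x : H 0), f (ss i x) = ss i (f x) := fun i x =>
    f.map_fun (Op.s i : L.Functions 1) (fun _ => x)
  obtain ⟨⟨w, k⟩, hu⟩ := f.surjective (gen 1)
  cases w with
  | cons i w =>
    have h1 := fs i (w, k)
    have h2 : (gen 1 : H 1) = ss i (f (w, k)) := hu.symm.trans h1
    have h3 := congrArg Prod.fst h2
    simp [gen, ss] at h3
  | nil =>
    cases k with
    | succ k =>
      have h1 := fp ([], k)
      have h2 : (gen 1 : H 1) = pp (f ([], k)) := hu.symm.trans h1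
      obtain ⟨i, hi⟩ := eq_ss_of_pp _ h2.symm
      have h3 : f (ss i (([], k + 1) : List ℕ × ℕ)) = ss i (gen 1) :=
        (fs i (([], k + 1) : List ℕ × ℕ)).trans (congrArg (ss i) hu)
      have h4 : (([], k) : List ℕ × ℕ) = ss i ([], k + 1) := f.injective (hi.trans h3.symm)
      have h5 := congrArg Prod.fst h4
      simp [ss] at h5
    | zero =>
      have h1 := fe ([], 0)
      have h2 : ee 0 (([], 0) : List ℕ × ℕ) = ([], 0) := by simp [ee]
      have h3 : ee 1 (gen 1) = (([], 1) : List ℕ × ℕ) := by simp [ee, pp, gen]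
      have h4 : ee 1 (f (([], 0) : List ℕ × ℕ)) = f (([], 0) : List ℕ × ℕ) :=
        h1.symm.trans (congrArg f h2)
      have h5 : (([], 1) : List ℕ × ℕ) = gen 1 :=
        h3.symm.trans ((congrArg (ee 1) hu.symm).trans (h4.trans hu))
      have h6 := congrArg Prod.snd h5
      simp [gen] at h6

/-- the identities `p (s i x) = x` -/
def E : Set (Σ n : ℕ, L.Term (Fin n) × L.Term (Fin n)) :=
  {q | ∃ i : ℕ, q = ⟨1, Term.func (Op.p : L.Functions 1) fun _ =>
    Term.func (Op.s i : L.Functions 1) fun _ => Term.var 0, Term.var 0⟩}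

theorem inVariety (c : ℕ) : InVariety E (H c) := by
  rintro q ⟨i, rfl⟩ v
  rfl

theorem fg (c : ℕ) : ∃ a : H c, Substructure.closure L {a} = ⊤ := ⟨gen c, closure_gen c⟩

/-- Finitely generated isotypic algebras in a variety need not be isomorphic: there are a variety in a
countable algebraic signature with unary operations only and two isotypic algebras in it, each of them
generated by one element, that are not isomorphic. -/
theorem result : ∃ (L : FirstOrder.Language.{0, 0})
    (E : Set (Σ n : ℕ, L.Term (Fin n) × L.Term (Fin n)))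
    (H₁ H₂ : Type) (_ : L.Structure H₁) (_ : L.Structure H₂),
    L.IsAlgebraic ∧ Countable (Σ n, L.Functions n) ∧ (∀ n, n ≠ 1 → IsEmpty (L.Functions n)) ∧
    InVariety E H₁ ∧ InVariety E H₂ ∧
    Structure.FG L H₁ ∧ Structure.FG L H₂ ∧
    (∃ a : H₁, Substructure.closure L {a} = ⊤) ∧ (∃ a : H₂, Substructure.closure L {a} = ⊤) ∧
    Isotypic L H₁ H₂ ∧ IsEmpty (H₁ ≃[L] H₂) := by
  refine ⟨L, E, H 0, H 1, inferInstance, inferInstance, fun n => (inferInstance : IsEmpty Empty),
    ?_, ?_, inVariety 0, inVariety 1, ?_, ?_, fg 0, fg 1, isotypic, not_iso⟩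
  · have : Function.Surjective (fun i : ℕ => (match i with
      | 0 => ⟨1, Op.p⟩
      | 1 => ⟨1, Op.e⟩
      | i + 2 => ⟨1, Op.s i⟩ : Σ n, L.Functions n)) := by
      rintro ⟨n, f⟩
      cases f with
      | p => exact ⟨0, rfl⟩
      | e => exact ⟨1, rfl⟩
      | s i => exact ⟨i + 2, rfl⟩
    exact this.countable
  · intro n hn
    refine ⟨fun f => ?_⟩
    cases f <;> exact hn rfl
  · exact ⟨Substructure.fg_def.2 ⟨{gen 0}, Set.finite_singleton _, closure_gen 0⟩⟩
  · exact ⟨Substructure.fg_def.2 ⟨{gen 1}, Set.finite_singleton _, closure_gen 1⟩⟩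

end Pool.Agent.Results.MP_c850b7_lc.NotIso
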